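import Pool.Agent.H87.EBK.Stmts

/-!
# Board `ebk`, row INT
-/

set_option autoImplicit false

namespace Pool.EBK

theorem int : INT := by
  intro V _ l hl
  have := Fintype.ofFinite V
  obtain ⟨N, hN⟩ : ∃ N : ℕ, N = ∏ u, (l u).den := ⟨_, rfl⟩
  have hN0 : 0 < N := by
    rw [hN]
    exact Finset.prod_pos fun u _ => (l u).den_pos
  have hNq : (0 : ℚ) < (N : ℚ) := by exact_mod_cast hN0
  have h1 : ∀ u, ∃ n : ℕ, (n : ℚ) = N * l u := by
    intro u
    have hd : (l u).den ∣ N := by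
      rw [hN]
      exact Finset.dvd_prod_of_mem _ (Finset.mem_univ u)
    obtain ⟨c, hc⟩ := hd
    refine ⟨c * (l u).num.toNat, ?_⟩
    have h2 : (((l u).num.toNat : ℕ) : ℤ) = (l u).num :=
      Int.toNat_of_nonneg (Rat.num_nonneg.2 (hl u).le)
    have h3 : (((l u).num.toNat : ℕ) : ℚ) = ((l u).num : ℚ) := by
      rw [← h2]
      push_cast
      rfl
    have h4 : (l u) * ((l u).den : ℚ) = ((l u).num : ℚ) := Rat.mul_den_eq_num (l u)
    push_cast
    rw [h3, ← h4, hc]
    push_cast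
    ring
  choose x hx using h1
  refine ⟨x, fun u => ?_, fun u w huw he => huw ?_, fun u w hs => ?_⟩
  · have : (0 : ℚ) < (x u : ℚ) := by
      rw [hx]
      exact mul_pos hNq (hl u)
    exact_mod_cast this
  · have h2 : (N : ℚ) * l u = N * l w := by
      rw [← hx, ← hx, he]
    exact mul_left_cancel₀ hNq.ne' h2
  · rw [← Rat.isSquare_natCast_iff]
    obtain ⟨r, hr⟩ := hs
    refine ⟨N * r, ?_⟩
    push_cast
    rw [hx, hx]
    linear_combination (N : ℚ) ^ 2 * hr

end Pool.EBK
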